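import Pool.Agent.L5helper98.CQ.Stmts

/-!
Project CQ (MP_b09bc5_pr), task Chern: lower tail by the exponential moment.
-/

set_option autoImplicit false

namespace Pool.Agent.L5helper83.CQ

open Finset
open Pool.Agent.L5helper98.CQ
open scoped Classical

/-- the event that `u` has no neighbour in `D` -/
def Aw {n : ℕ} (D : Finset (Fin n)) (u : Fin n) (ω : Om n) : Prop := ∀ w ∈ D, ¬ adj ω u w

/-- the factor of `u` in the exponential moment -/
noncomputable def hf {n : ℕ} (D : Finset (Fin n)) (u : Fin n) (ω : Om n) : ℝ :=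
  if Aw D u ω then Real.exp (-1) else 1

lemma Aw_iff {n : ℕ} (D : Finset (Fin n)) (u : Fin n) (ω : Om n) : Aw D u ω ↔ nb ω u D = ∅ := by
  unfold Aw nb
  rw [Finset.filter_eq_empty_iff]

lemma dep_hf {n : ℕ} (D : Finset (Fin n)) (u : Fin n) : Dep (hf D u) (star u D) := by
  intro ω ω' h
  have := Dep_nb u D ω ω' h
  unfold hf
  rw [Aw_iff, Aw_iff]
  simp only at this
  rw [this]

lemma Ex_hf {n : ℕ} {p : ℝ} (h0 : 0 ≤ p) (h1 : p ≤ 1) {t : ℕ} (D : Finset (Fin n))
    (hD : D.card ≤ t) (u : Fin n) (hu : u ∉ D) :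
    Ex p (hf D u) ≤ Real.exp (-((1 - p) ^ t / 2)) := by
  have e1 : Ex p (hf D u) = 1 - (1 - Real.exp (-1)) * (1 - p) ^ D.card := by
    have e2 : Ex p (hf D u) =
        Ex p (fun ω => (1 : ℝ) - (1 - Real.exp (-1)) * (if Aw D u ω then 1 else 0)) := by
      congr 1
      funext ω
      unfold hf
      split_ifs <;> ring
    rw [e2, Ex_sub, Ex_const, Ex_const_mul]
    have e3 : Ex p (fun ω : Om n => if Aw D u ω then (1 : ℝ) else 0) = (1 - p) ^ D.card :=
      Pb_disjoint_nb p u D hu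
    rw [e3]
  rw [e1]
  have e4 : (1 - p) ^ t ≤ (1 - p) ^ D.card :=
    pow_le_pow_of_le_one (by linarith) (by linarith) hD
  have e5 : Real.exp (-1) ≤ 1 / 2 := by
    rw [Real.exp_neg, inv_le_comm₀ (Real.exp_pos 1) (by norm_num)]
    have := Real.add_one_le_exp (1 : ℝ)
    norm_num at this ⊢
    linarith
  have e6 : 0 ≤ (1 - p) ^ t := pow_nonneg (by linarith) t
  have e7 := Real.add_one_le_exp (-((1 - p) ^ t / 2))
  nlinarith

lemma card_away {n t : ℕ} (v : Fin t → Fin n) (ω : Om n) :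
    (((univ \ univ.image v).filter (fun u => Aw (univ.image v) u ω)).card : ℝ) ≤
      ((univ.filter (fun u => ∀ i, ¬ adj ω (v i) u)).card : ℝ) := by
  have : ((univ \ univ.image v).filter (fun u => Aw (univ.image v) u ω)) ⊆
      (univ.filter (fun u => ∀ i, ¬ adj ω (v i) u)) := by
    intro u hu
    rw [mem_filter] at hu
    rw [mem_filter]
    refine ⟨mem_univ _, fun i => ?_⟩
    rw [adj_comm]
    exact hu.2 (v i) (mem_image_of_mem v (mem_univ i))
  exact_mod_cast Finset.card_le_card this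

lemma prod_hf {n : ℕ} (D U : Finset (Fin n)) (ω : Om n) :
    ∏ u ∈ U, hf D u ω = Real.exp (-((U.filter (fun u => Aw D u ω)).card : ℝ)) := by
  unfold hf
  rw [Finset.prod_ite, Finset.prod_const_one, mul_one, Finset.prod_const, ← Real.exp_nat_mul]
  congr 1
  ring

theorem one_map {n t : ℕ} {p y : ℝ} (h0 : 0 ≤ p) (h1 : p ≤ 1) (v : Fin t → Fin n) :
    Pb p (fun ω : Om n => ((univ.filter (fun u => ∀ i, ¬ adj ω (v i) u)).card : ℝ) ≤ y) ≤
      Real.exp (y - ((n : ℝ) - t) * (1 - p) ^ t / 2) := by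
  set D : Finset (Fin n) := univ.image v with hD
  have hDc : D.card ≤ t := by
    rw [hD]
    exact Finset.card_image_le.trans (by simp)
  set U : Finset (Fin n) := univ \ D with hU
  have hUc : (n : ℝ) - t ≤ (U.card : ℝ) := by
    have e1 : U.card = n - D.card := by
      rw [hU, Finset.card_sdiff_of_subset (Finset.subset_univ _), Finset.card_univ, Fintype.card_fin]
    have e2 : D.card ≤ n := by
      have := Finset.card_le_univ D
      rwa [Fintype.card_fin] at this
    rw [e1, Nat.cast_sub e2]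
    have : (D.card : ℝ) ≤ t := by exact_mod_cast hDc
    linarith
  have s1 : Pb p (fun ω : Om n => ((univ.filter (fun u => ∀ i, ¬ adj ω (v i) u)).card : ℝ) ≤ y) ≤
      Ex p (fun ω : Om n => Real.exp y * ∏ u ∈ U, hf D u ω) := by
    unfold Pb
    refine Ex_mono h0 h1 fun ω => ?_
    rw [prod_hf, ← Real.exp_add]
    split_ifs with h
    · have h2 := card_away v ω
      rw [← hD, ← hU] at h2
      have : (0 : ℝ) ≤ y + -((U.filter (fun u => Aw D u ω)).card : ℝ) := by linarith
      exact Real.one_le_exp this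
    · exact (Real.exp_pos _).le
  refine s1.trans ?_
  rw [Ex_const_mul, Ex_prod_of_dep p U (fun u => star u D) (fun u => hf D u)
    (fun u _ => dep_hf D u) (by
      intro i hi j hj hij
      refine star_disjoint i j D ?_ hij
      rw [hU, mem_sdiff] at hi
      exact hi.2)]
  have s2 : ∏ u ∈ U, Ex p (hf D u) ≤ ∏ _u ∈ U, Real.exp (-((1 - p) ^ t / 2)) := by
    refine Finset.prod_le_prod (fun u _ => Ex_nonneg h0 h1 fun ω => ?_) (fun u hu => ?_)
    · unfold hf
      split_ifs
      · exact (Real.exp_pos _).le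
      · exact zero_le_one
    · refine Ex_hf h0 h1 D hDc u ?_
      rw [hU, mem_sdiff] at hu
      exact hu.2
  have s3 : ∏ _u ∈ U, Real.exp (-((1 - p) ^ t / 2)) = Real.exp (-(U.card * ((1 - p) ^ t / 2))) := by
    rw [Finset.prod_const, ← Real.exp_nat_mul]
    congr 1
    ring
  have s4 : Real.exp (-(U.card * ((1 - p) ^ t / 2))) ≤
      Real.exp (-(((n : ℝ) - t) * (1 - p) ^ t / 2)) := by
    apply Real.exp_le_exp.2
    have e6 : 0 ≤ (1 - p) ^ t := pow_nonneg (by linarith) t
    nlinarith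
  calc Real.exp y * ∏ u ∈ U, Ex p (hf D u)
      ≤ Real.exp y * Real.exp (-(((n : ℝ) - t) * (1 - p) ^ t / 2)) :=
        mul_le_mul_of_nonneg_left (s2.trans (s3.le.trans s4)) (Real.exp_pos y).le
    _ = Real.exp (y - ((n : ℝ) - t) * (1 - p) ^ t / 2) := by
        rw [← Real.exp_add]
        congr 1

theorem taskChern : TaskChern := by
  intro n t p y h0 h1 _
  have h := Pb_exists_mem h0 h1 (Finset.univ : Finset (Fin t → Fin n))
    (fun v (ω : Om n) => ((univ.filter (fun u => ∀ i, ¬ adj ω (v i) u)).card : ℝ) ≤ y)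
  have e1 : Pb p (fun ω : Om n => ∃ v : Fin t → Fin n,
        ((univ.filter (fun u => ∀ i, ¬ adj ω (v i) u)).card : ℝ) ≤ y) =
      Pb p (fun ω : Om n => ∃ v ∈ (Finset.univ : Finset (Fin t → Fin n)),
        ((univ.filter (fun u => ∀ i, ¬ adj ω (v i) u)).card : ℝ) ≤ y) := by
    congr 1
    funext ω
    simp
  rw [e1]
  refine h.trans ?_
  refine (Finset.sum_le_sum fun v _ => one_map h0 h1 v).trans (le_of_eq ?_)
  rw [Finset.sum_const, Finset.card_univ, nsmul_eq_mul]
  congr 1
  simp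

end Pool.Agent.L5helper83.CQ
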