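import Pool.Agent.L5helper98.CQ.Stmts

set_option autoImplicit false

namespace Pool.Agent.L5helper83.CQ

open Pool.Agent.L5helper98.CQ

/-- the functions of which the infimum is taken -/
noncomputable def FF (n : ℕ) (p : ℝ) (r : ℕ) : ℝ :=
  (r : ℝ) / 2 * Real.log (1 / p) + n * p ^ r / ((r : ℝ) - 1)

lemma FF_nonneg_part {n : ℕ} {p : ℝ} (hp : 0 < p) {r : ℕ} (hr : 2 ≤ r) :
    (r : ℝ) / 2 * Real.log (1 / p) ≤ FF n p r := by
  have h1 : (2 : ℝ) ≤ r := by exact_mod_cast hr
  have h2 : 0 ≤ n * p ^ r / ((r : ℝ) - 1) := by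
    apply div_nonneg (by positivity) (by linarith)
  unfold FF
  linarith

lemma bdd {n : ℕ} {p : ℝ} (hp : 0 < p) (hL : 0 ≤ Real.log (1 / p)) :
    BddBelow (Set.range fun r : {r : ℕ // 2 ≤ r} => FF n p r.1) := by
  refine ⟨Real.log (1 / p), ?_⟩
  rintro _ ⟨r, rfl⟩
  have h1 : (2 : ℝ) ≤ (r.1 : ℝ) := by exact_mod_cast r.2
  have h2 := FF_nonneg_part (n := n) hp r.2
  show Real.log (1 / p) ≤ FF n p r.1
  nlinarith

lemma ls_le {n : ℕ} {p : ℝ} (hp : 0 < p) (hL : 0 ≤ Real.log (1 / p)) {r : ℕ} (hr : 2 ≤ r) :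
    ls n p ≤ FF n p r :=
  ciInf_le (bdd hp hL) (⟨r, hr⟩ : {r : ℕ // 2 ≤ r})

lemma le_ls {n : ℕ} {p : ℝ} {c : ℝ} (h : ∀ r : ℕ, 2 ≤ r → c ≤ FF n p r) : c ≤ ls n p := by
  have : Nonempty {r : ℕ // 2 ≤ r} := ⟨⟨2, le_refl 2⟩⟩
  exact le_ciInf fun r => h r.1 r.2

theorem taskChoose : TaskChoose := by
  intro ε γ hε hγ hγε
  set K : ℝ := max (max 4 (4 / ε)) (max (1 / γ) (2 * (1 / ε + 3) / ε ^ 2)) with hK
  refine ⟨⌈Real.exp K⌉₊, fun n hn p hp => ?_⟩
  have hn1 : Real.exp K ≤ n := Nat.ceil_le.mp hn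
  have hn0 : (0 : ℝ) < n := lt_of_lt_of_le (Real.exp_pos K) hn1
  set l : ℝ := Real.log n with hl
  have hlK : K ≤ l := by
    rw [hl, Real.le_log_iff_exp_le hn0]
    exact hn1
  have hK1 : 4 ≤ l := le_trans (le_trans (le_max_left _ _) (le_max_left _ _)) hlK
  have hK2 : 4 / ε ≤ l := le_trans (le_trans (le_max_right _ _) (le_max_left _ _)) hlK
  have hK3 : 1 / γ ≤ l := le_trans (le_trans (le_max_left _ _) (le_max_right _ _)) hlK
  have hK4 : 2 * (1 / ε + 3) / ε ^ 2 ≤ l :=
    le_trans (le_trans (le_max_right _ _) (le_max_right _ _)) hlK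
  have hεl : 4 ≤ ε * l := by
    rw [div_le_iff₀ hε] at hK2
    linarith
  have hγl : 1 ≤ γ * l := by
    rw [div_le_iff₀ hγ] at hK3
    linarith
  have hl0 : 0 < l := by linarith
  obtain ⟨hp1, hp2⟩ := hp
  have hp0 : 0 < p := lt_of_lt_of_le (Real.rpow_pos_of_pos hn0 _) hp1
  set L : ℝ := Real.log (1 / p) with hLdef
  have hLp : L = - Real.log p := by rw [hLdef, one_div, Real.log_inv]
  have hL1 : ε * l ≤ L := by
    have := Real.log_le_log hp0 hp2
    rw [Real.log_rpow hn0] at this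
    rw [hLp]
    linarith
  have hL2 : L ≤ (1 / 3 - ε) * l := by
    have := Real.log_le_log (Real.rpow_pos_of_pos hn0 _) hp1
    rw [Real.log_rpow hn0] at this
    rw [hLp]
    linarith
  have hL0 : 0 < L := by linarith
  have hnp : ∀ r : ℕ, (n : ℝ) * p ^ r = Real.exp (l - r * L) := by
    intro r
    rw [Real.exp_sub, Real.exp_log hn0, mul_comm (r : ℝ) L, hLp]
    have : Real.exp (-Real.log p * r) = (p ^ r)⁻¹ := by
      rw [neg_mul, Real.exp_neg, mul_comm, Real.exp_nat_mul, Real.exp_log hp0]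
    rw [this]
    field_simp
  -- the comparison index
  have hx : ∃ r1 : ℕ, 2 ≤ r1 ∧ (r1 : ℝ) ≤ 1 / ε + 1 ∧ FF n p r1 ≤ (l + L) / 2 + 1 := by
    refine ⟨⌈l / L⌉₊, ?_, ?_, ?_⟩
    · have h1 : (1 : ℝ) < l / L := by
        rw [lt_div_iff₀ hL0]
        nlinarith
      have h2 : 1 < ⌈l / L⌉₊ := by
        rw [Nat.lt_ceil]
        exact_mod_cast h1
      exact h2
    · have h1 : (⌈l / L⌉₊ : ℝ) < l / L + 1 := Nat.ceil_lt_add_one (by positivity)
      have h2 : l / L ≤ 1 / ε := by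
        rw [div_le_div_iff₀ hL0 hε]
        linarith
      linarith
    · have h1 : (⌈l / L⌉₊ : ℝ) < l / L + 1 := Nat.ceil_lt_add_one (by positivity)
      have h3 : l / L ≤ (⌈l / L⌉₊ : ℝ) := Nat.le_ceil _
      have h4 : l ≤ (⌈l / L⌉₊ : ℝ) * L := by
        rw [div_le_iff₀ hL0] at h3
        exact h3
      have h5 : (⌈l / L⌉₊ : ℝ) * L ≤ l + L := by
        have : l / L * L = l := by field_simp
        nlinarith
      have h6 : (2 : ℝ) ≤ (⌈l / L⌉₊ : ℝ) := by
        have h7 : (2 : ℝ) ≤ l / L := by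
          rw [le_div_iff₀ hL0]
          nlinarith
        linarith
      unfold FF
      rw [hnp]
      have h8 : Real.exp (l - (⌈l / L⌉₊ : ℝ) * L) ≤ 1 := by
        rw [Real.exp_le_one_iff]
        linarith
      have h9 : Real.exp (l - (⌈l / L⌉₊ : ℝ) * L) / ((⌈l / L⌉₊ : ℝ) - 1) ≤ 1 := by
        rw [div_le_one (by linarith)]
        linarith
      have h10 : (⌈l / L⌉₊ : ℝ) / 2 * L ≤ (l + L) / 2 := by linarith
      linarith
  obtain ⟨r1, hr1a, hr1b, hr1c⟩ := hx
  have hls1 : ls n p ≤ (l + L) / 2 + 1 := le_trans (ls_le hp0 hL0.le hr1a) hr1c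
  -- the minimiser
  have hmin : ∃ r0 : ℕ, 2 ≤ r0 ∧ (r0 : ℝ) ≤ 1 / ε + 3 ∧ ∀ r : ℕ, 2 ≤ r → FF n p r0 ≤ FF n p r := by
    obtain ⟨r0, hr0, hr0min⟩ := Finset.exists_min_image (Finset.Icc 2 (⌈1 / ε⌉₊ + 2)) (FF n p)
      ⟨2, by simp⟩
    rw [Finset.mem_Icc] at hr0
    have hce : (⌈1 / ε⌉₊ : ℝ) < 1 / ε + 1 := Nat.ceil_lt_add_one (by positivity)
    have hce2 : 1 / ε ≤ (⌈1 / ε⌉₊ : ℝ) := Nat.le_ceil _
    refine ⟨r0, hr0.1, ?_, ?_⟩
    · have : (r0 : ℝ) ≤ (⌈1 / ε⌉₊ : ℝ) + 2 := by exact_mod_cast hr0.2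
      linarith
    · intro r hr
      by_cases hr2 : r ≤ ⌈1 / ε⌉₊ + 2
      · exact hr0min r (Finset.mem_Icc.mpr ⟨hr, hr2⟩)
      · have hr3 : (⌈1 / ε⌉₊ : ℝ) + 3 ≤ r := by
          have : ⌈1 / ε⌉₊ + 3 ≤ r := by omega
          exact_mod_cast this
        have h1 : FF n p r0 ≤ FF n p r1 := by
          apply hr0min
          rw [Finset.mem_Icc]
          refine ⟨hr1a, ?_⟩
          have : (r1 : ℝ) ≤ ((⌈1 / ε⌉₊ + 2 : ℕ) : ℝ) := by
            push_cast
            linarith
          exact_mod_cast this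
        have h2 : (r : ℝ) / 2 * L ≤ FF n p r := FF_nonneg_part hp0 hr
        have h3 : 1 / ε * L ≥ l := by
          rw [ge_iff_le, one_div, inv_mul_eq_div, le_div_iff₀ hε]
          linarith
        have h4 : (1 / ε + 3) * L ≤ r * L := by
          apply mul_le_mul_of_nonneg_right _ hL0.le
          linarith
        linarith
  obtain ⟨r0, hr0a, hr0b, hr0min⟩ := hmin
  have hls0 : ls n p = FF n p r0 :=
    le_antisymm (ls_le hp0 hL0.le hr0a) (le_ls hr0min)
  have hr0R : (2 : ℝ) ≤ r0 := by exact_mod_cast hr0a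
  have hεinv : 0 < 1 / ε := by positivity
  have hε6 : ε < 1 / 3 := by
    by_contra hcon
    push Not at hcon
    nlinarith
  refine ⟨?_, ?_, ?_, ?_⟩
  · by_cases hc : (n : ℝ) * p ^ r0 ≤ ((r0 : ℝ) - 1) / 2 * L - γ * l
    · refine ⟨r0, ?_, ?_, hc, ?_⟩
      · rcases Nat.lt_or_ge r0 3 with h | h
        · exfalso
          have h2 : r0 = 2 := by omega
          rw [h2, hnp] at hc
          have h3 : l / 3 + 1 ≤ Real.exp (l / 3) := Real.add_one_le_exp _
          have h4 : Real.exp (l / 3) ≤ Real.exp (l - (2 : ℕ) * L) := by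
            apply Real.exp_le_exp.mpr
            push_cast
            nlinarith
          push_cast at hc h4
          have h5 : (2 - 1 : ℝ) / 2 * L ≤ l / 6 := by nlinarith
          have h6 : 0 < γ * l := by positivity
          linarith
        · exact h
      · have : 1 / ε ≤ 2 / ε := by
          apply div_le_div_of_nonneg_right _ hε.le
          norm_num
        linarith
      · show FF n p r0 ≤ _
        rw [hls0]
        have : 0 < γ * l := by positivity
        linarith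
    · push Not at hc
      -- bound for `n p ^ r0`
      have hpe : p ≤ Real.exp (-(ε * l)) := by
        have : (n : ℝ) ^ (-ε : ℝ) = Real.exp (-(ε * l)) := by
          rw [Real.rpow_def_of_pos hn0, ← hl]
          congr 1
          ring
        rwa [this] at hp2
      have hexp : Real.exp (-(ε * l)) ≤ 2 / (ε * l) ^ 2 := by
        rw [Real.exp_neg, inv_le_comm₀ (Real.exp_pos _) (by positivity), inv_div]
        have := Real.quadratic_le_exp_of_nonneg (x := ε * l) (by positivity)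
        nlinarith [this, hεl]
      have hp12 : p ≤ 1 / 2 := by
        have : 2 / (ε * l) ^ 2 ≤ 1 / 2 := by
          rw [div_le_div_iff₀ (by positivity) (by norm_num)]
          nlinarith
        linarith
      have hnp0 : 0 < (n : ℝ) * p ^ r0 := by positivity
      have hA : (n : ℝ) * p ^ r0 ≤ ((r0 : ℝ) - 1) * L := by
        have h1 := hr0min (r0 + 1) (by omega)
        unfold FF at h1
        push_cast at h1
        have h2 : (n : ℝ) * p ^ (r0 + 1) / ((r0 : ℝ) + 1 - 1) ≤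
            (n : ℝ) * p ^ r0 / ((r0 : ℝ) - 1) * (1 / 2) := by
          rw [pow_succ, add_sub_cancel_right, div_mul_div_comm, div_le_div_iff₀ (by linarith) (by linarith)]
          have h3 : p * (((r0 : ℝ) - 1) * 2) ≤ 1 * (r0 : ℝ) := by
            nlinarith
          calc (n : ℝ) * (p ^ r0 * p) * (((r0 : ℝ) - 1) * 2)
              = (n : ℝ) * p ^ r0 * (p * (((r0 : ℝ) - 1) * 2)) := by ring
            _ ≤ (n : ℝ) * p ^ r0 * (1 * (r0 : ℝ)) := by
                apply mul_le_mul_of_nonneg_left h3 hnp0.le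
            _ = (n : ℝ) * p ^ r0 * 1 * (r0 : ℝ) := by ring
        have h3 : (n : ℝ) * p ^ r0 / ((r0 : ℝ) - 1) ≤ L := by linarith
        rw [div_le_iff₀ (by linarith)] at h3
        linarith
      have hB : (n : ℝ) * p ^ (r0 + 1) ≤ 1 := by
        have h1 : (n : ℝ) * p ^ (r0 + 1) = p * ((n : ℝ) * p ^ r0) := by ring
        rw [h1]
        have h2 : ((r0 : ℝ) - 1) * L ≤ (1 / ε + 3) * l := by
          apply mul_le_mul (by linarith) (by nlinarith) hL0.le (by positivity)
        calc p * ((n : ℝ) * p ^ r0) ≤ 2 / (ε * l) ^ 2 * ((1 / ε + 3) * l) := by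
              apply mul_le_mul (le_trans hpe hexp) (le_trans hA h2) hnp0.le (by positivity)
          _ = (2 * (1 / ε + 3) / ε ^ 2) / l := by
              field_simp
          _ ≤ 1 := by
              rw [div_le_one hl0]
              exact hK4
      have hγL : γ * l ≤ L / 4 := by
        nlinarith
      refine ⟨r0 + 1, by omega, ?_, ?_, ?_⟩
      · push_cast
        have : 1 / ε ≤ 2 / ε := by
          apply div_le_div_of_nonneg_right _ hε.le
          norm_num
        linarith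
      · push_cast
        rw [add_sub_cancel_right]
        have h1 : L ≤ (r0 : ℝ) / 2 * L := by nlinarith
        linarith
      · show FF n p (r0 + 1) ≤ _
        rw [hls0]
        unfold FF
        push_cast
        rw [add_sub_cancel_right]
        have h1 : (n : ℝ) * p ^ (r0 + 1) / (r0 : ℝ) ≤ 1 := by
          rw [div_le_one (by linarith)]
          linarith
        have h2 : (((r0 : ℝ) - 1) / 2 * L - γ * l) / ((r0 : ℝ) - 1) ≤
            (n : ℝ) * p ^ r0 / ((r0 : ℝ) - 1) := by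
          apply div_le_div_of_nonneg_right hc.le (by linarith)
        have h3 : (((r0 : ℝ) - 1) / 2 * L - γ * l) / ((r0 : ℝ) - 1) =
            L / 2 - γ * l / ((r0 : ℝ) - 1) := by
          have : (r0 : ℝ) - 1 ≠ 0 := by linarith
          field_simp
        have h4 : γ * l / ((r0 : ℝ) - 1) ≤ γ * l := by
          apply div_le_self (by positivity) (by linarith)
        rw [h3] at h2
        linarith
  · have h1 : Real.log ((n : ℝ) * p) = l - L := by
      rw [Real.log_mul hn0.ne' hp0.ne', hLp]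
      ring
    rw [h1]
    nlinarith
  · apply le_ls
    intro r hr
    have h1 : (2 : ℝ) ≤ (r : ℝ) := by exact_mod_cast hr
    have h2 := FF_nonneg_part (n := n) hp0 hr
    have h3 : L ≤ (r : ℝ) / 2 * L := by nlinarith
    linarith
  · nlinarith

end Pool.Agent.L5helper83.CQ
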